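import Mathlib
import Pool.Agent.V1123.GirthComm

/-!
# MP_eff4ce_al : bounded rank and unbounded girth for commuting graphs

For every `g` there is a finite semigroup generated by at most `12` elements whose commuting graph
contains a cycle and all whose cycles have length at least `g`.
-/

namespace Pool.Agent.Results.MP_eff4ce_al.GirthUnbounded

open Pool.Agent.V1123.SqFreeSeq Pool.Agent.V1123.GirthLang Pool.Agent.V1123.GirthSg
  Pool.Agent.V1123.GirthComm

/-- The commuting graph of a semigroup `S`: the vertices are the non-central elements of `S`, and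
two distinct vertices are adjacent iff they commute. -/
def commutingGraph (S : Type) [Semigroup S] :
    SimpleGraph {x : S // ¬ ∀ s : S, x * s = s * x} where
  Adj x y := x ≠ y ∧ x.1 * y.1 = y.1 * x.1
  symm := ⟨fun _ _ h => ⟨h.1.symm, h.2.symm⟩⟩
  loopless := ⟨fun _ h => h.1 rfl⟩

/-- A criterion for the existence of a cycle. -/
lemma not_acyclic_of_chain {V : Type*} (G : SimpleGraph V) (n : ℕ) (hn : 0 < n)
    (e0 e1 kq kp : ℕ → V)
    (a1 : ∀ j, G.Adj (e0 j) (kq j)) (a2 : ∀ j, G.Adj (kq j) (e1 j))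
    (a3 : ∀ j, G.Adj (e1 j) (kp (j + 1))) (a4 : ∀ j, G.Adj (kp j) (e0 j)) (hper : kp n = kp 0)
    (b1 : ∀ j, kq j ≠ kp 0) (b2 : ∀ j, kq j ≠ e0 0) (b3 : ∀ j, e1 j ≠ kp 0)
    (b4 : ∀ j, e1 j ≠ e0 0) (b5 : ∀ j, e0 j ≠ kp 0)
    (b6 : ∀ j, 0 < j → j < n → e0 j ≠ e0 0) : ¬ G.IsAcyclic := by
  intro hac
  have hb := SimpleGraph.isAcyclic_iff_forall_adj_isBridge.1 hac (a4 0)
  rw [SimpleGraph.isBridge_iff] at hb
  apply hb
  set H := G.deleteEdges {s(kp 0, e0 0)} with hH
  have hadj : ∀ x y, G.Adj x y → x ≠ kp 0 → x ≠ e0 0 → H.Adj x y := by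
    intro x y hxy h1 h2
    rw [hH, SimpleGraph.deleteEdges_adj]
    refine ⟨hxy, ?_⟩
    rw [Set.mem_singleton_iff, Sym2.eq_iff]
    rintro (⟨h, -⟩ | ⟨h, -⟩)
    · exact h1 h
    · exact h2 h
  -- one step without the last edge
  have step : ∀ j, H.Reachable (e0 j) (kp (j + 1)) := by
    intro j
    have s1 : H.Reachable (e0 j) (kq j) := (hadj _ _ (a1 j).symm (b1 j) (b2 j)).symm.reachable
    have s2 : H.Reachable (kq j) (e1 j) := (hadj _ _ (a2 j) (b1 j) (b2 j)).reachable
    have s3 : H.Reachable (e1 j) (kp (j + 1)) := (hadj _ _ (a3 j) (b3 j) (b4 j)).reachable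
    exact s1.trans (s2.trans s3)
  have chain : ∀ j, j < n → H.Reachable (e0 0) (e0 j) := by
    intro j
    induction j with
    | zero => intro _; exact SimpleGraph.Reachable.refl _
    | succ j ih =>
      intro hj
      have s4 : H.Reachable (kp (j + 1)) (e0 (j + 1)) :=
        (hadj _ _ (a4 (j + 1)).symm (b5 _) (b6 _ (by omega) hj)).symm.reachable
      exact ((ih (by omega)).trans (step j)).trans s4
  have h1 := (chain (n - 1) (by omega)).trans (step (n - 1))
  rw [show n - 1 + 1 = n by omega, hper] at h1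
  exact h1.symm

section

variable {Z : Type} (m : ℕ) (φ : List Lt → Z)

/-- words with the same information -/
def st : Setoid (List Lt) where
  r w w' := inv (m + 2) φ w = inv (m + 2) φ w'
  iseqv := ⟨fun _ => rfl, fun h => h.symm, fun h h' => h.trans h'⟩

/-- The semigroup. -/
def Sg : Type := Quotient (st m φ)

/-- The class of a word. -/
def mk (w : List Lt) : Sg m φ := Quotient.mk (st m φ) w

instance : Semigroup (Sg m φ) where
  mul := Quotient.map₂ (· ++ ·) (fun _ _ h _ _ h' => inv_append (by omega) h h')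
  mul_assoc := by
    rintro ⟨a⟩ ⟨b⟩ ⟨c⟩
    exact congrArg (mk m φ) (List.append_assoc a b c)

lemma mk_mul (u v : List Lt) : mk m φ u * mk m φ v = mk m φ (u ++ v) := rfl

lemma mk_eq {u v : List Lt} : mk m φ u = mk m φ v ↔ inv (m + 2) φ u = inv (m + 2) φ v :=
  Quotient.eq

lemma mk_surj (x : Sg m φ) : ∃ w, mk m φ w = x := Quotient.exists_rep x

/-- Words of bounded length. -/
lemma finite_short (n : ℕ) : {l : List Lt | l.length ≤ n}.Finite := List.finite_length_le Lt n

instance [Finite Z] : Finite (Sg m φ) := by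
  set B := {l : List Lt | l.length ≤ m + 2} with hB
  have hBf : B.Finite := finite_short (m + 2)
  set A : Set (LI Z) := (LI.leg '' B) ∪ (LI.oo '' B) ∪ (LI.qq '' B) ∪ (LI.p1 '' B) ∪
    Set.range LI.p0 with hA
  have hAf : A.Finite := by
    refine ((((hBf.image _).union (hBf.image _)).union (hBf.image _)).union
      (hBf.image _)).union (Set.finite_range _)
  have hF : ∀ P : List Lt, (P.take (m + 2)).length ≤ m + 2 := fun P => by
    rw [List.length_take]; omega
  have hex : ∀ t P, ex (m + 2) φ t P ∈ A := by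
    intro t P
    cases t with
    | o => exact Or.inl (Or.inl (Or.inl (Or.inr ⟨_, hF P, rfl⟩)))
    | q =>
      simp only [ex, exF]
      split_ifs
      · refine Or.inl (Or.inl (Or.inr ⟨_, ?_, rfl⟩))
        change (List.take _ _).length ≤ m + 2
        rw [List.length_take]
        have := hF P
        omega
      · exact Or.inl (Or.inl (Or.inr ⟨_, hF P, rfl⟩))
    | p =>
      simp only [ex, exF]
      split_ifs
      · exact Or.inr ⟨_, rfl⟩
      · refine Or.inl (Or.inr ⟨_, ?_, rfl⟩)
        change (List.take _ _).length ≤ m + 2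
        rw [List.length_take]
        have := hF P
        omega
  have hlin : ∀ w, linf (m + 2) φ w ∈ A := by
    intro w
    by_cases hw : Leg (m + 2) w
    · rw [linf_of_leg hw]
      exact Or.inl (Or.inl (Or.inl (Or.inl ⟨_, hF w, rfl⟩)))
    · obtain ⟨P, x, z, rfl, h1, h2⟩ := exists_dec (langLeg (m + 2)) hw
      rw [linf_dec h1 h2]
      exact hex _ _
  have hfin : Finite ↥(A ×ˢ B) := (hAf.prod hBf).to_subtype
  have hmem : ∀ w, inv (m + 2) φ w ∈ A ×ˢ B := by
    intro w
    refine ⟨hlin w, ?_⟩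
    change (List.take _ _).length ≤ m + 2
    rw [List.length_take]
    omega
  let f : Sg m φ → ↥(A ×ˢ B) := Quotient.lift (fun w => ⟨inv (m + 2) φ w, hmem w⟩)
    (fun a b h => Subtype.ext h)
  refine Finite.of_injective f ?_
  rintro ⟨a⟩ ⟨b⟩ h
  exact Quotient.sound (congrArg Subtype.val h)

/-- The generators. -/
noncomputable def gens : Finset (Sg m φ) := by
  classical exact insert (mk m φ []) (Finset.univ.image fun a : Lt => mk m φ [a])

lemma card_gens : (gens m φ).card ≤ 12 := by
  classical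
  unfold gens
  refine (Finset.card_insert_le _ _).trans ?_
  have h1 : (Finset.univ.image fun a : Lt => mk m φ [a]).card ≤ 11 := by
    refine Finset.card_image_le.trans ?_
    rw [Finset.card_univ]
    decide
  omega

lemma closure_gens : Subsemigroup.closure (gens m φ : Set (Sg m φ)) = ⊤ := by
  classical
  rw [eq_top_iff]
  rintro x -
  obtain ⟨w, rfl⟩ := mk_surj m φ x
  induction w with
  | nil => exact Subsemigroup.subset_closure (by simp [gens])
  | cons a w ih =>
    have : mk m φ (a :: w) = mk m φ [a] * mk m φ w := rfl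
    rw [this]
    exact mul_mem (Subsemigroup.subset_closure (by simp [gens])) ih

end

section analysis

variable {m : ℕ}

/-- The last letter of a loop. -/
def L (m : ℕ) (b : Bool) : Lt := Lt.mk (xs (m + 1)) b

lemma L_inj {b c : Bool} (h : L m b = L m c) : b = c := by
  simpa [L] using h

/-- Words (loops without last letter). -/
def W (m : ℕ) (l : List Lt) : Prop := R (m + 2) 0 l ∧ l.length = m + 1

/-- loops at position `0` -/
def LP (m : ℕ) (l : List Lt) : Prop := R (m + 2) 0 l ∧ l.length = m + 2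

lemma ok_L (b : Bool) : ok (m + 2) (m + 1) (L m b) := by
  have h : (m + 1) % (m + 2) = m + 1 := Nat.mod_eq_of_lt (by omega)
  exact ⟨by omega, by rw [h]⟩

lemma LP_of_W {l : List Lt} (hl : W m l) (b : Bool) : LP m (l ++ [L m b]) := by
  refine ⟨R_append.2 ⟨hl.1, ?_, trivial⟩, by simp [hl.2]⟩
  rw [hl.2, zero_add]
  exact ok_L b

lemma W_of_LP {F : List Lt} (hF : LP m F) : ∃ l b, W m l ∧ F = l ++ [L m b] := by
  have e : F = F.take (m + 1) ++ F.drop (m + 1) := (List.take_append_drop _ _).symm
  have hlen : (F.take (m + 1)).length = m + 1 := by rw [List.length_take, hF.2]; omega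
  have hlen2 : (F.drop (m + 1)).length = 1 := by rw [List.length_drop, hF.2]; omega
  obtain ⟨a, ha⟩ := List.length_eq_one_iff.1 hlen2
  have hR := hF.1
  rw [e, R_append, hlen, ha, zero_add] at hR
  have hok : ok (m + 2) (m + 1) a := hR.2.1
  have h : (m + 1) % (m + 2) = m + 1 := Nat.mod_eq_of_lt (by omega)
  obtain ⟨b, hb⟩ : ∃ b, a = L m b := by
    cases a with
    | mk c b => exact ⟨b, by rw [L, ← h]; exact congrArg (fun x => Lt.mk x b) hok.2⟩
    | hash => simp [ok, h] at hok
    | p => exact hok.elim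
    | q => exact hok.elim
  exact ⟨F.take (m + 1), b, ⟨hR.1, hlen⟩, by rw [← hb, ← ha]; exact e⟩

lemma W_head {l : List Lt} (hl : W m l) : l.head? = some .hash := by
  obtain ⟨h1, h2⟩ := hl
  cases l with
  | nil => simp at h2
  | cons a l =>
    have h0 : ok (m + 2) 0 a := h1.1
    cases a <;> simp_all [ok]

lemma head_append {l v : List Lt} (h : l.head? = some .hash) : (l ++ v).head? = some .hash := by
  cases l with
  | nil => simp at h
  | cons a l => simpa using h

/-- A legal word starting with the marker is readable from `0`. -/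
lemma R_zero {w : List Lt} (hw : Leg (m + 2) w) (h : w.head? = some .hash) : R (m + 2) 0 w := by
  obtain ⟨s, hs⟩ := hw
  cases w with
  | nil => trivial
  | cons a w =>
    simp at h
    subst h
    have h0 : s % (m + 2) = 0 := hs.1
    exact (R_congr (by simpa using h0) _).1 hs

lemma LP_append {F E : List Lt} (hF : LP m F) (hE : R (m + 2) 0 E) : R (m + 2) 0 (F ++ E) := by
  refine R_append.2 ⟨hF.1, (R_congr ?_ _).1 hE⟩
  rw [hF.2]
  simp

/-- The collapse on the loops at position `0`. -/
def phi {n : ℕ} (idx : List Lt → ZMod n) (F : List Lt) : ZMod n :=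
  idx (F.take (m + 1)) + (if F.drop (m + 1) = [L m true] then 1 else 0)

lemma phi_loop {n : ℕ} (idx : List Lt → ZMod n) {l : List Lt} (hl : W m l) (b : Bool) :
    phi (m := m) idx (l ++ [L m b]) = idx l + (if b then 1 else 0) := by
  unfold phi
  have e1 : (l ++ [L m b]).take (m + 1) = l := by
    rw [← hl.2, List.take_left]
  have e2 : (l ++ [L m b]).drop (m + 1) = [L m b] := by
    rw [← hl.2, List.drop_left]
  rw [e1, e2]
  cases b with
  | true => simp
  | false =>
    have : ¬ ([L m false] = [L m true]) := by simp [L]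
    rw [if_neg this]
    simp

variable {Z : Type} {φ : List Lt → Z}

/-- A set of words such that each word has two distinct neighbours in the set. -/
structure Two (m : ℕ) (φ : List Lt → Z) (T : List Lt → Prop) : Prop where
  ne : ∀ w, T w → w ≠ []
  congr : ∀ w w', T w → inv (m + 2) φ w = inv (m + 2) φ w' → T w'
  two : ∀ w, T w → ∃ a b, T a ∧ T b ∧ inv (m + 2) φ a ≠ inv (m + 2) φ b ∧
    inv (m + 2) φ a ≠ inv (m + 2) φ w ∧ inv (m + 2) φ b ≠ inv (m + 2) φ w ∧
    inv (m + 2) φ (w ++ a) = inv (m + 2) φ (a ++ w) ∧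
    inv (m + 2) φ (w ++ b) = inv (m + 2) φ (b ++ w)

variable {T : List Lt → Prop}

lemma Two.step1 (hT : Two m φ T) {w : List Lt} (hw : T w) (hl : Leg (m + 2) w) :
    m + 2 ≤ w.length ∧ m + 2 ∣ w.length := by
  by_contra hcon
  have hsq : ¬ Leg (m + 2) (w ++ w) := by
    intro h
    rcases Nat.lt_or_ge w.length (m + 2) with hlt | hge
    · exact no_sq (hT.ne w hw) hlt h
    · exact hcon ⟨hge, dvd_of_leg_self (by omega) hge h⟩
  obtain ⟨a, b, ha, hb, hab, haw, hbw, ca, cb⟩ := hT.two w hw
  have hna : ¬ Leg (m + 2) a := fun h =>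
    haw (comm_legal (hT.ne w hw) (hT.ne a ha) hl h ca).symm
  have hnb : ¬ Leg (m + 2) b := fun h =>
    hbw (comm_legal (hT.ne w hw) (hT.ne b hb) hl h cb).symm
  exact hab ((comm_sq (by omega) hna hsq ca).trans (comm_sq (by omega) hnb hsq cb).symm)

/-- neighbours of an illegal element -/
lemma Two.step3 (hT : Two m φ T) {k : List Lt} (hk : T k) (hl : ¬ Leg (m + 2) k) :
    ∃ a b t, T a ∧ T b ∧ Leg (m + 2) a ∧ Leg (m + 2) b ∧ a.take (m + 2) ≠ b.take (m + 2) ∧
      inv (m + 2) φ k = (ex (m + 2) φ t a, a.reverse.take (m + 2)) ∧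
      inv (m + 2) φ k = (ex (m + 2) φ t b, b.reverse.take (m + 2)) ∧ t ≠ .o := by
  obtain ⟨a, b, ha, hb, hab, hak, hbk, ca, cb⟩ := hT.two k hk
  have hla : Leg (m + 2) a := by
    by_contra h
    exact hak (comm_ill_ill (by omega) hl h ca).symm
  have hlb : Leg (m + 2) b := by
    by_contra h
    exact hbk (comm_ill_ill (by omega) hl h cb).symm
  obtain ⟨t, ht⟩ := comm_long (by omega) hl hla (hT.step1 ha hla).1 ca.symm
  obtain ⟨t', ht'⟩ := comm_long (by omega) hl hlb (hT.step1 hb hlb).1 cb.symm
  have he := ht.symm.trans ht'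
  have htt : t = t' := ex_ty (Prod.mk.inj he).1
  subst htt
  have hne : a.take (m + 2) ≠ b.take (m + 2) := by
    intro h
    apply hab
    refine Prod.ext ?_ ?_
    · change linf (m + 2) φ a = linf (m + 2) φ b
      rw [linf_of_leg hla, linf_of_leg hlb, h]
    · change rinf (m + 2) a = rinf (m + 2) b
      rw [rinf_of_leg hla, rinf_of_leg hlb]
      exact (Prod.mk.inj he).2
  refine ⟨a, b, t, ha, hb, hla, hlb, hne, ht, ht', ?_⟩
  rintro rfl
  apply hne
  simpa only [ex, exF, LI.oo.injEq] using (Prod.mk.inj he).1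

/-- both kinds of neighbours of a legal element of `T` are in `T`. -/
lemma Two.step4 (hT : Two m φ T) {w : List Lt} (hw : T w) (hl : Leg (m + 2) w) {t : Ty}
    (ht : t ≠ .o) : ∃ k, T k ∧ ¬ Leg (m + 2) k ∧
      inv (m + 2) φ k = (ex (m + 2) φ t w, w.reverse.take (m + 2)) := by
  obtain ⟨a, b, ha, hb, hab, haw, hbw, ca, cb⟩ := hT.two w hw
  have hna : ¬ Leg (m + 2) a := fun h =>
    haw (comm_legal (hT.ne w hw) (hT.ne a ha) hl h ca).symm
  have hnb : ¬ Leg (m + 2) b := fun h =>
    hbw (comm_legal (hT.ne w hw) (hT.ne b hb) hl h cb).symm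
  obtain ⟨t1, h1⟩ := comm_long (by omega) hna hl (hT.step1 hw hl).1 ca
  obtain ⟨t2, h2⟩ := comm_long (by omega) hnb hl (hT.step1 hw hl).1 cb
  have hne : t1 ≠ t2 := by
    rintro rfl
    exact hab (h1.trans h2.symm)
  have aux : ∀ k, T k → ¬ Leg (m + 2) k → ∀ t, inv (m + 2) φ k =
      (ex (m + 2) φ t w, w.reverse.take (m + 2)) → t ≠ .o := by
    intro k hk hnk t hkt
    obtain ⟨a, b, t', -, -, -, -, -, h, -, ho⟩ := hT.step3 hk hnk
    have := ex_ty (Prod.mk.inj (hkt.symm.trans h)).1
    rw [this]
    exact ho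
  have o1 := aux a ha hna t1 h1
  have o2 := aux b hb hnb t2 h2
  by_cases h : t = t1
  · rw [h]; exact ⟨a, ha, hna, h1⟩
  · have : t = t2 := by
      cases t <;> cases t1 <;> cases t2 <;> simp_all
    rw [this]; exact ⟨b, hb, hnb, h2⟩

/-- legal elements of `T` start with the marker. -/
lemma Two.head (hT : Two m φ T) {w : List Lt} (hw : T w) (hl : Leg (m + 2) w) :
    w.head? = some .hash := by
  by_contra hcon
  obtain ⟨k, hk, hnk, hkq⟩ := hT.step4 hw hl (t := .q) (by simp)
  obtain ⟨a, b, t, ha, hb, hla, hlb, hne, ea, eb, -⟩ := hT.step3 hk hnk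
  have key : ∀ a, T a → Leg (m + 2) a → inv (m + 2) φ k =
      (ex (m + 2) φ t a, a.reverse.take (m + 2)) → a.take (m + 2) = w.take (m + 2) := by
    intro a ha hla ea
    have h1 := (Prod.mk.inj (hkq.symm.trans ea)).1
    have ht := ex_ty h1
    rw [← ht] at h1
    simp only [ex, exF, LI.qq.injEq] at h1
    rw [head_take (by omega), head_take (by omega), if_neg hcon] at h1
    split_ifs at h1 with h2
    · exfalso
      have := congrArg List.length h1
      have l1 := (hT.step1 hw hl).1
      simp only [List.length_take, Nat.add_succ_sub_one] at this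
      omega
    · exact h1.symm
  exact hne ((key a ha hla ea).trans (key b hb hlb eb).symm)

lemma bool3 {x y z : Bool} (h1 : ¬ x = y) (h2 : y ≠ z) : x = z := by
  cases x <;> cases y <;> cases z <;> simp_all

/-- flipping the last bit -/
lemma Two.flip (hT : Two m φ T) {l E : List Lt} (hW : W m l) (hE : LP m E) {c : Bool}
    (hw : T (l ++ [L m c] ++ E)) (c' : Bool) : T (l ++ [L m c'] ++ E) := by
  have hl : Leg (m + 2) (l ++ [L m c] ++ E) := ⟨0, LP_append (LP_of_W hW c) hE.1⟩
  have hlen : (l ++ [L m c]).length = m + 2 := (LP_of_W hW c).2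
  have htake : ∀ c, (l ++ [L m c] ++ E).take (m + 2) = l ++ [L m c] := by
    intro c
    rw [← (LP_of_W hW c).2, List.take_left]
  have hrev : ∀ c, (l ++ [L m c] ++ E).reverse.take (m + 2) = E.reverse := by
    intro c
    rw [List.reverse_append, ← hE.2, ← List.length_reverse, List.take_left]
  obtain ⟨k, hk, hnk, hkq⟩ := hT.step4 hw hl (t := .q) (by simp)
  obtain ⟨a, b, t, ha, hb, hla, hlb, hne, ea, eb, -⟩ := hT.step3 hk hnk
  have key : ∀ a, T a → Leg (m + 2) a → inv (m + 2) φ k =
      (ex (m + 2) φ t a, a.reverse.take (m + 2)) →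
      ∃ d, a.take (m + 2) = l ++ [L m d] ∧ a.reverse.take (m + 2) = E.reverse := by
    intro a ha hla ea
    have hha := hT.head ha hla
    have h1 := Prod.mk.inj (hkq.symm.trans ea)
    have ht := ex_ty h1.1
    have h2 := h1.1
    rw [← ht] at h2
    simp only [ex, exF, LI.qq.injEq] at h2
    rw [head_take (by omega), head_take (by omega), if_pos hha,
      if_pos (hT.head hw hl), List.take_take, List.take_take,
      Nat.min_eq_left (by omega)] at h2
    have hRa := R_zero hla hha
    rw [← List.take_append_drop (m + 2) a] at hRa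
    have hLPa : LP m (a.take (m + 2)) :=
      ⟨(R_append.1 hRa).1, by rw [List.length_take]; have := (hT.step1 ha hla).1; omega⟩
    obtain ⟨l', d, hW', e⟩ := W_of_LP hLPa
    refine ⟨d, ?_, by rw [← h1.2, hrev]⟩
    rw [e]
    have e3 := congrArg (List.take (m + 1)) e
    rw [List.take_take, Nat.min_eq_left (by omega)] at e3
    have e4 : (l' ++ [L m d]).take (m + 1) = l' := by rw [← hW'.2, List.take_left]
    have e5 : (l ++ [L m c] ++ E).take (m + 1) = l := by
      rw [List.append_assoc, ← hW.2, List.take_left]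
    rw [e4] at e3
    have h3 : m + 2 - 1 = m + 1 := rfl
    rw [h3, e5, e3] at h2
    rw [h2]
  obtain ⟨d1, f1, g1⟩ := key a ha hla ea
  obtain ⟨d2, f2, g2⟩ := key b hb hlb eb
  have hd : d1 ≠ d2 := by
    rintro rfl
    exact hne (f1.trans f2.symm)
  have hl' : Leg (m + 2) (l ++ [L m c'] ++ E) := ⟨0, LP_append (LP_of_W hW c') hE.1⟩
  have fin : ∀ a, T a → Leg (m + 2) a → a.take (m + 2) = l ++ [L m c'] →
      a.reverse.take (m + 2) = E.reverse → T (l ++ [L m c'] ++ E) := by
    intro a ha hla f g
    refine hT.congr a _ ha (Prod.ext ?_ ?_)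
    · change linf (m + 2) φ _ = linf (m + 2) φ _
      rw [linf_of_leg hla, linf_of_leg hl', f, htake]
    · change rinf (m + 2) _ = rinf (m + 2) _
      rw [rinf_of_leg hla, rinf_of_leg hl', g, hrev]
  by_cases h : c' = d1
  · subst h; exact fin a ha hla f1 g1
  · have : c' = d2 := bool3 h hd
    subst this; exact fin b hb hlb f2 g2

/-- moving to the next loop -/
lemma Two.succ {n : ℕ} {idx : List Lt → ZMod n} (hT : Two m (phi (m := m) idx) T)
    (hinj : ∀ l l', W m l → W m l' → idx l = idx l' → l = l')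
    {l E : List Lt} (hW : W m l) (hE : LP m E)
    (hw : T (l ++ [L m true] ++ E)) : ∃ l', W m l' ∧ idx l' = idx l + 1 ∧
      T (l' ++ [L m false] ++ E) := by
  have hl : Leg (m + 2) (l ++ [L m true] ++ E) := ⟨0, LP_append (LP_of_W hW true) hE.1⟩
  have htake : ∀ l, W m l → ∀ c, (l ++ [L m c] ++ E).take (m + 2) = l ++ [L m c] := by
    intro l hW c
    rw [← (LP_of_W hW c).2, List.take_left]
  have hrev : ∀ l : List Lt, (l ++ E).reverse.take (m + 2) = E.reverse := by
    intro l
    rw [List.reverse_append, ← hE.2, ← List.length_reverse, List.take_left]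
  obtain ⟨k, hk, hnk, hkq⟩ := hT.step4 hw hl (t := .p) (by simp)
  obtain ⟨a, b, t, ha, hb, hla, hlb, hne, ea, eb, -⟩ := hT.step3 hk hnk
  have key : ∀ a, T a → Leg (m + 2) a → inv (m + 2) (phi (m := m) idx) k =
      (ex (m + 2) (phi (m := m) idx) t a, a.reverse.take (m + 2)) →
      ∃ l' d, W m l' ∧ a.take (m + 2) = l' ++ [L m d] ∧ a.reverse.take (m + 2) = E.reverse ∧
        idx l' + (if d then 1 else 0) = idx l + 1 := by
    intro a ha hla ea
    have hha := hT.head ha hla
    have h1 := Prod.mk.inj (hkq.symm.trans ea)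
    have ht := ex_ty h1.1
    have h2 := h1.1
    rw [← ht] at h2
    simp only [ex, exF] at h2
    rw [head_take (by omega), head_take (by omega), if_pos hha,
      if_pos (hT.head hw hl), htake l hW, phi_loop idx hW] at h2
    have hRa := R_zero hla hha
    rw [← List.take_append_drop (m + 2) a] at hRa
    have hLPa : LP m (a.take (m + 2)) :=
      ⟨(R_append.1 hRa).1, by rw [List.length_take]; have := (hT.step1 ha hla).1; omega⟩
    obtain ⟨l', d, hW', e⟩ := W_of_LP hLPa
    refine ⟨l', d, hW', e, by rw [← h1.2, hrev], ?_⟩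
    rw [e, phi_loop idx hW'] at h2
    simpa using (LI.p0.inj h2).symm
  obtain ⟨l1, d1, hW1, f1, g1, i1⟩ := key a ha hla ea
  obtain ⟨l2, d2, hW2, f2, g2, i2⟩ := key b hb hlb eb
  have fin : ∀ a l', W m l' → T a → Leg (m + 2) a → a.take (m + 2) = l' ++ [L m false] →
      a.reverse.take (m + 2) = E.reverse → T (l' ++ [L m false] ++ E) := by
    intro a l' hW' ha hla f g
    have hl' : Leg (m + 2) (l' ++ [L m false] ++ E) := ⟨0, LP_append (LP_of_W hW' false) hE.1⟩
    refine hT.congr a _ ha (Prod.ext ?_ ?_)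
    · change linf (m + 2) _ _ = linf (m + 2) _ _
      rw [linf_of_leg hla, linf_of_leg hl', f, htake l' hW']
    · change rinf (m + 2) _ = rinf (m + 2) _
      rw [rinf_of_leg hla, rinf_of_leg hl', g, hrev]
  cases d1 with
  | false => exact ⟨l1, hW1, by simpa using i1, fin a l1 hW1 ha hla f1 g1⟩
  | true =>
    cases d2 with
    | false => exact ⟨l2, hW2, by simpa using i2, fin b l2 hW2 hb hlb f2 g2⟩
    | true =>
      exfalso
      have : idx l1 = idx l2 := by
        have := i1.trans i2.symm
        simpa using this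
      rw [hinj l1 l2 hW1 hW2 this] at f1
      exact hne (f1.trans f2.symm)

/-- The main closure statement: `T` contains all loops with given second component. -/
lemma Two.all {n : ℕ} [NeZero n] {idx : List Lt → ZMod n} (hT : Two m (phi (m := m) idx) T)
    (hinj : ∀ l l', W m l → W m l' → idx l = idx l' → l = l')
    {w : List Lt} (hw : T w) : ∃ E, LP m E ∧ ∀ l, W m l → T (l ++ [L m false] ++ E) := by
  -- find a legal element
  obtain ⟨w, hw, hl⟩ : ∃ w, T w ∧ Leg (m + 2) w := by
    by_cases hl : Leg (m + 2) w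
    · exact ⟨w, hw, hl⟩
    · obtain ⟨a, b, t, ha, -, hla, -⟩ := hT.step3 hw hl
      exact ⟨a, ha, hla⟩
  obtain ⟨hlen, hdvd⟩ := hT.step1 hw hl
  have hR := R_zero hl (hT.head hw hl)
  -- the last loop
  have e1 : w = w.take (w.length - (m + 2)) ++ w.drop (w.length - (m + 2)) :=
    (List.take_append_drop _ _).symm
  set E := w.drop (w.length - (m + 2)) with hEdef
  have hElen : E.length = m + 2 := by rw [hEdef, List.length_drop]; omega
  have hE : LP m E := by
    refine ⟨?_, hElen⟩
    rw [e1, R_append] at hR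
    refine (R_congr ?_ _).1 hR.2
    rw [List.length_take, Nat.min_eq_left (by omega), zero_add]
    obtain ⟨c, hc⟩ := hdvd
    rw [hc]
    rcases c with _ | c
    · simp
    · rw [Nat.mul_succ, Nat.add_sub_cancel]
      simp
  have hF : LP m (w.take (m + 2)) := by
    rw [← List.take_append_drop (m + 2) w] at hR
    exact ⟨(R_append.1 hR).1, by rw [List.length_take]; omega⟩
  obtain ⟨l0, c0, hW0, e0⟩ := W_of_LP hF
  have hw0 : T (l0 ++ [L m c0] ++ E) := by
    have hl' : Leg (m + 2) (l0 ++ [L m c0] ++ E) := ⟨0, LP_append (LP_of_W hW0 c0) hE.1⟩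
    refine hT.congr w _ hw (Prod.ext ?_ ?_)
    · change linf (m + 2) _ _ = linf (m + 2) _ _
      rw [linf_of_leg hl, linf_of_leg hl', e0, ← (LP_of_W hW0 c0).2, List.take_left]
    · change rinf (m + 2) _ = rinf (m + 2) _
      rw [rinf_of_leg hl, rinf_of_leg hl', List.reverse_append, ← hElen,
        ← List.length_reverse (as := E), List.take_left]
      conv_lhs => rw [e1, List.reverse_append, List.take_left]
  refine ⟨E, hE, ?_⟩
  -- closure
  have key : ∀ j : ℕ, ∃ l, W m l ∧ idx l = idx l0 + j ∧ T (l ++ [L m false] ++ E) := by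
    intro j
    induction j with
    | zero => exact ⟨l0, hW0, by simp, hT.flip hW0 hE hw0 false⟩
    | succ j ih =>
      obtain ⟨l, hW, hidx, hTl⟩ := ih
      obtain ⟨l', hW', hidx', hTl'⟩ := hT.succ hinj hW hE (hT.flip hW hE hTl true)
      exact ⟨l', hW', by rw [hidx', hidx]; push_cast; ring, hTl'⟩
  intro l hW
  obtain ⟨l', hW', hidx, hTl⟩ := key (idx l - idx l0).val
  have : idx l' = idx l := by
    rw [hidx, ZMod.natCast_zmod_val]
    ring
  rw [← hinj l' l hW' hW this]
  exact hTl

end analysis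

section final

variable {m : ℕ}

lemma not_leg_exit {x : Lt} (hx : ty x ≠ .o) (u v : List Lt) : ¬ Leg (m + 2) (u ++ x :: v) := by
  intro h
  exact hx (leg_ty h x (by simp))

/-- information of `u x v`, `u`, `v` legal, `x` an exit letter. -/
lemma inv_exit {Z : Type} {φ : List Lt → Z} {x : Lt} (hx : ty x ≠ .o) {u v : List Lt}
    (hu : Leg (m + 2) u) (hv : Leg (m + 2) v) :
    inv (m + 2) φ (u ++ x :: v) = (ex (m + 2) φ (ty x) u, v.reverse.take (m + 2)) := by
  refine Prod.ext ?_ ?_
  · exact linf_dec hu (not_leg_exit hx u [])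
  · change (c1 (LegR (m + 2)) (u ++ x :: v).reverse).take (m + 2) = _
    have e : (u ++ x :: v).reverse = v.reverse ++ x :: u.reverse := by simp
    rw [e]
    unfold c1
    rw [cut_dec (langLegR (m + 2)) (legR_reverse.2 hv)]
    intro h
    unfold LegR at h
    rw [List.reverse_append, List.reverse_reverse] at h
    exact not_leg_exit hx [] v (by simpa using h)

lemma ex_long {Z : Type} {φ : List Lt → Z} {t : Ty} {w v : List Lt} (hw : m + 2 ≤ w.length) :
    ex (m + 2) φ t (w ++ v) = ex (m + 2) φ t w := by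
  unfold ex
  rw [List.take_append_of_le_length hw]

/-- a loop `w` commutes with `w x w`. -/
lemma loop_comm {Z : Type} {φ : List Lt → Z} {x : Lt} (hx : ty x ≠ .o) {w : List Lt}
    (hw : Leg (m + 2) w) (hl : m + 2 ≤ w.length) (hd : m + 2 ∣ w.length) :
    inv (m + 2) φ (w ++ (w ++ x :: w)) = inv (m + 2) φ ((w ++ x :: w) ++ w) := by
  have hww := leg_self_append hw hd
  have e1 : w ++ (w ++ x :: w) = (w ++ w) ++ x :: w := by simp
  have e2 : (w ++ x :: w) ++ w = w ++ x :: (w ++ w) := by simp
  rw [e1, e2, inv_exit hx hww hw, inv_exit hx hw hww, ex_long hl, List.reverse_append,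
    List.take_append_of_le_length (by simpa using hl)]

/-- The word read from position `0`. -/
def wd (_m : ℕ) (β : ℕ → Bool) (k : ℕ) : List Lt :=
  (List.range k).map fun i => if i = 0 then Lt.hash else Lt.mk (xs i) (β i)

lemma wd_length (β : ℕ → Bool) (k : ℕ) : (wd m β k).length = k := by simp [wd]

lemma wd_R (β : ℕ → Bool) (k : ℕ) (hk : k ≤ m + 2) : R (m + 2) 0 (wd m β k) := by
  induction k with
  | zero => simp [wd, R]
  | succ k ih =>
    have e : wd m β (k + 1) = wd m β k ++ [if k = 0 then Lt.hash else Lt.mk (xs k) (β k)] := by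
      simp [wd, List.range_succ]
    rw [e, R_append, wd_length]
    refine ⟨ih (by omega), ?_, trivial⟩
    have hmod : (0 + k) % (m + 2) = k := by rw [zero_add]; exact Nat.mod_eq_of_lt (by omega)
    split_ifs with h
    · subst h; exact hmod
    · refine ⟨by rw [hmod]; exact h, by rw [hmod]⟩

lemma wd_W (β : ℕ → Bool) : W m (wd m β (m + 1)) := ⟨wd_R β _ (by omega), wd_length β _⟩

/-- many words -/
lemma wd_inj {i j : ℕ} (hi : 0 < i) (hi' : i ≤ m)
    (h : wd m (fun x => decide (x = i)) (m + 1) = wd m (fun x => decide (x = j)) (m + 1)) :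
    i = j := by
  have h1 := congrArg (fun l : List Lt => l[i]?) h
  simp only [wd, List.getElem?_map] at h1
  rw [List.getElem?_range (by omega)] at h1
  simp only [Option.map_some, Option.some.injEq] at h1
  rw [if_neg (by omega), if_neg (by omega)] at h1
  simpa using (Lt.mk.inj h1).2

lemma finite_W : Finite {l : List Lt // W m l} := by
  refine Set.Finite.to_subtype ?_
  exact (finite_short (m + 1)).subset (fun l hl => hl.2.le)

/-- An indexing of the words. -/
lemma exists_idx (m : ℕ) : ∃ (n : ℕ) (_ : NeZero n) (idx : List Lt → ZMod n),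
    (∀ l l', W m l → W m l' → idx l = idx l' → l = l') ∧
    ∀ i : ZMod n, ∃ l, W m l ∧ idx l = i := by
  have hfin := finite_W (m := m)
  have hne : Nonempty {l : List Lt // W m l} := ⟨⟨_, wd_W (fun _ => false)⟩⟩
  have hn : NeZero (Nat.card {l : List Lt // W m l}) := ⟨Nat.card_pos.ne'⟩
  refine ⟨Nat.card {l : List Lt // W m l}, hn, ?_⟩
  have hcard : Nat.card {l : List Lt // W m l} =
      Nat.card (ZMod (Nat.card {l : List Lt // W m l})) := by rw [Nat.card_zmod]
  have he : Nonempty ({l : List Lt // W m l} ≃ ZMod (Nat.card {l : List Lt // W m l})) := by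
    exact Finite.card_eq.1 hcard
  obtain ⟨e⟩ := he
  classical
  refine ⟨fun l => if h : W m l then e ⟨l, h⟩ else 0, ?_, ?_⟩
  · intro l l' hl hl' h
    simp only [dif_pos hl, dif_pos hl'] at h
    exact congrArg Subtype.val (e.injective h)
  · intro i
    refine ⟨(e.symm i).1, (e.symm i).2, ?_⟩
    simp only [dif_pos (e.symm i).2]
    simp

section cycle

variable {n : ℕ} (idx : List Lt → ZMod n)

/-- The information of a loop element. -/
lemma inv_loop {Z : Type} {φ : List Lt → Z} {l E : List Lt} (hl : W m l) (hE : LP m E)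
    (c : Bool) : inv (m + 2) φ (l ++ [L m c] ++ E) = (.leg (l ++ [L m c]), E.reverse) := by
  have h : Leg (m + 2) (l ++ [L m c] ++ E) := ⟨0, LP_append (LP_of_W hl c) hE.1⟩
  refine Prod.ext ?_ ?_
  · change linf (m + 2) φ _ = _
    rw [linf_of_leg h, ← (LP_of_W hl c).2, List.take_left]
  · change rinf (m + 2) _ = _
    rw [rinf_of_leg h, List.reverse_append, ← hE.2, ← List.length_reverse (as := E),
      List.take_left]

lemma leg_loop {l E : List Lt} (hl : W m l) (hE : LP m E) (c : Bool) :
    Leg (m + 2) (l ++ [L m c] ++ E) := ⟨0, LP_append (LP_of_W hl c) hE.1⟩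

lemma len_loop {l E : List Lt} (hl : W m l) (hE : LP m E) (c : Bool) :
    (l ++ [L m c] ++ E).length = 2 * (m + 2) := by
  rw [List.length_append, (LP_of_W hl c).2, hE.2]; ring

lemma inv_q {Z : Type} {φ : List Lt → Z} {l E : List Lt} (hl : W m l) (hE : LP m E) (c : Bool) :
    inv (m + 2) φ ((l ++ [L m c] ++ E) ++ Lt.q :: (l ++ [L m c] ++ E)) =
      (.qq l, E.reverse) := by
  have h := leg_loop hl hE c
  rw [inv_exit (by simp [ty]) h h]
  refine Prod.ext ?_ ?_
  · simp only [ex, exF, ty]
    rw [← (LP_of_W hl c).2, List.take_left, if_pos (head_append (W_head hl)),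
      (LP_of_W hl c).2]
    have : m + 2 - 1 = l.length := by rw [hl.2]; rfl
    rw [this, List.take_left]
  · simp only
    rw [List.reverse_append, ← hE.2, ← List.length_reverse (as := E), List.take_left]

lemma inv_p {l E : List Lt} (hl : W m l) (hE : LP m E) (c : Bool) :
    inv (m + 2) (phi (m := m) idx) ((l ++ [L m c] ++ E) ++ Lt.p :: (l ++ [L m c] ++ E)) =
      (.p0 (idx l + (if c then 1 else 0)), E.reverse) := by
  have h := leg_loop hl hE c
  rw [inv_exit (by simp [ty]) h h]
  refine Prod.ext ?_ ?_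
  · simp only [ex, exF, ty]
    have e : (l ++ [L m c] ++ E).take (m + 2) = l ++ [L m c] := by
      rw [← (LP_of_W hl c).2, List.take_left]
    rw [e, if_pos (head_append (W_head hl)), phi_loop idx hl]
  · simp only
    rw [List.reverse_append, ← hE.2, ← List.length_reverse (as := E), List.take_left]

/-- vertices -/
abbrev V (m : ℕ) (idx : List Lt → ZMod n) :=
  {x : Sg m (phi (m := m) idx) // ¬ ∀ s : Sg m (phi (m := m) idx), x * s = s * x}

variable {idx}

lemma nc_e {l E : List Lt} (hl : W m l) (hE : LP m E) (c : Bool) :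
    ¬ ∀ s : Sg m (phi (m := m) idx), mk m (phi (m := m) idx) (l ++ [L m c] ++ E) * s =
      s * mk m (phi (m := m) idx) (l ++ [L m c] ++ E) := by
  intro h
  have h1 := h (mk m (phi (m := m) idx) (l ++ [L m (!c)] ++ E))
  rw [mk_mul, mk_mul, mk_eq] at h1
  have h2 := comm_legal (by simp) (by simp) (leg_loop hl hE c) (leg_loop hl hE (!c)) h1
  rw [inv_loop hl hE, inv_loop hl hE] at h2
  have h3 := LI.leg.inj (Prod.mk.inj h2).1
  have h4 := List.append_cancel_left h3
  have h5 := L_inj (List.cons.inj h4).1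
  cases c <;> simp at h5

lemma nc_k {k k' : List Lt} (hk : ¬ Leg (m + 2) k) (hk' : ¬ Leg (m + 2) k')
    (hne : inv (m + 2) (phi (m := m) idx) k ≠ inv (m + 2) (phi (m := m) idx) k') :
    ¬ ∀ s : Sg m (phi (m := m) idx), mk m (phi (m := m) idx) k * s =
      s * mk m (phi (m := m) idx) k := by
  intro h
  have h1 := h (mk m (phi (m := m) idx) k')
  rw [mk_mul, mk_mul, mk_eq] at h1
  exact hne (comm_ill_ill (by omega) hk hk' h1)

/-- The commuting graph is not acyclic. -/
lemma not_acyclic [NeZero n] (hsurj : ∀ i : ZMod n, ∃ l, W m l ∧ idx l = i) :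
    ¬ (commutingGraph (Sg m (phi (m := m) idx))).IsAcyclic := by
  choose lw hlW hlidx using fun j : ℕ => hsurj (j : ZMod n)
  set φ := phi (m := m) idx with hφ
  set E := lw 0 ++ [L m false] with hEdef
  have hE : LP m E := LP_of_W (hlW 0) false
  -- words
  let we : Bool → ℕ → List Lt := fun c j => lw j ++ [L m c] ++ E
  have hleg : ∀ c j, Leg (m + 2) (we c j) := fun c j => leg_loop (hlW j) hE c
  have hlen : ∀ c j, (we c j).length = 2 * (m + 2) := fun c j => len_loop (hlW j) hE c
  have iE : ∀ c j, inv (m + 2) φ (we c j) = (.leg (lw j ++ [L m c]), E.reverse) :=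
    fun c j => inv_loop (hlW j) hE c
  have iQ : ∀ c j, inv (m + 2) φ (we c j ++ Lt.q :: we c j) = (.qq (lw j), E.reverse) :=
    fun c j => inv_q (hlW j) hE c
  have iP : ∀ c j, inv (m + 2) φ (we c j ++ Lt.p :: we c j) =
      (.p0 ((j : ZMod n) + (if c then 1 else 0)), E.reverse) := by
    intro c j
    have := inv_p idx (hlW j) hE c
    rw [hlidx j] at this
    exact this
  have nq : ∀ c j, ¬ Leg (m + 2) (we c j ++ Lt.q :: we c j) := fun c j =>
    not_leg_exit (by simp [ty]) _ _
  have np : ∀ c j, ¬ Leg (m + 2) (we c j ++ Lt.p :: we c j) := fun c j =>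
    not_leg_exit (by simp [ty]) _ _
  have hqp : ∀ c j c' j', inv (m + 2) φ (we c j ++ Lt.q :: we c j) ≠
      inv (m + 2) φ (we c' j' ++ Lt.p :: we c' j') := by
    intro c j c' j' h
    rw [iQ, iP] at h
    simp at h
  let e : Bool → ℕ → V m idx := fun c j => ⟨mk m φ (we c j), nc_e (hlW j) hE c⟩
  let kq : Bool → ℕ → V m idx := fun c j => ⟨mk m φ (we c j ++ Lt.q :: we c j),
    nc_k (nq c j) (np c j) (hqp c j c j)⟩
  let kp : Bool → ℕ → V m idx := fun c j => ⟨mk m φ (we c j ++ Lt.p :: we c j),
    nc_k (np c j) (nq c j) (hqp c j c j).symm⟩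
  -- adjacency
  have adjq : ∀ c j, (commutingGraph (Sg m φ)).Adj (e c j) (kq c j) := by
    intro c j
    refine ⟨fun h => ?_, ?_⟩
    · have h1 := (mk_eq m φ).1 (congrArg Subtype.val h)
      rw [iE, iQ] at h1
      simp at h1
    · change mk m φ _ * mk m φ _ = mk m φ _ * mk m φ _
      rw [mk_mul, mk_mul, mk_eq]
      exact loop_comm (by simp [ty]) (hleg c j) (by rw [hlen]; omega)
        (by rw [hlen]; exact Dvd.intro_left 2 rfl)
  have adjp : ∀ c j, (commutingGraph (Sg m φ)).Adj (e c j) (kp c j) := by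
    intro c j
    refine ⟨fun h => ?_, ?_⟩
    · have h1 := (mk_eq m φ).1 (congrArg Subtype.val h)
      rw [iE, iP] at h1
      simp at h1
    · change mk m φ _ * mk m φ _ = mk m φ _ * mk m φ _
      rw [mk_mul, mk_mul, mk_eq]
      exact loop_comm (by simp [ty]) (hleg c j) (by rw [hlen]; omega)
        (by rw [hlen]; exact Dvd.intro_left 2 rfl)
  have eqq : ∀ j, kq true j = kq false j := by
    intro j
    apply Subtype.ext
    rw [mk_eq, iQ, iQ]
  have eqp : ∀ j, kp true j = kp false (j + 1) := by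
    intro j
    apply Subtype.ext
    rw [mk_eq, iP, iP]
    simp
  refine not_acyclic_of_chain _ n (NeZero.pos n) (e false) (e true) (kq false) (kp false)
    (adjq false) (fun j => ?_) (fun j => ?_) (fun j => (adjp false j).symm) ?_ ?_ ?_ ?_ ?_ ?_ ?_
  · rw [← eqq]; exact (adjq true j).symm
  · rw [← eqp]; exact adjp true j
  · apply Subtype.ext
    rw [mk_eq, iP, iP]
    simp
  · intro j h
    exact hqp _ _ _ _ ((mk_eq m φ).1 (congrArg Subtype.val h))
  · intro j h
    have h1 := (mk_eq m φ).1 (congrArg Subtype.val h)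
    rw [iE, iQ] at h1
    simp at h1
  · intro j h
    have h1 := (mk_eq m φ).1 (congrArg Subtype.val h)
    rw [iE, iP] at h1
    simp at h1
  · intro j h
    have h1 := (mk_eq m φ).1 (congrArg Subtype.val h)
    rw [iE, iE] at h1
    have h3 := LI.leg.inj (Prod.mk.inj h1).1
    have h4 := List.append_inj_right' h3 rfl
    have h5 := L_inj (List.cons.inj h4).1
    simp at h5
  · intro j h
    have h1 := (mk_eq m φ).1 (congrArg Subtype.val h)
    rw [iE, iP] at h1
    simp at h1
  · intro j hj hjn h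
    have h1 := (mk_eq m φ).1 (congrArg Subtype.val h)
    rw [iE, iE] at h1
    have h3 := LI.leg.inj (Prod.mk.inj h1).1
    have h4 := List.append_inj_left' h3 rfl
    have h5 := congrArg idx h4
    rw [hlidx, hlidx] at h5
    have h6 := (ZMod.natCast_eq_natCast_iff' j 0 n).1 h5
    rw [Nat.mod_eq_of_lt hjn, Nat.zero_mod] at h6
    omega

/-- Every cycle is long. -/
lemma cycle_long [NeZero n] (hinj : ∀ l l', W m l → W m l' → idx l = idx l' → l = l')
    {v : V m idx} (c : (commutingGraph (Sg m (phi (m := m) idx))).Walk v v) (hc : c.IsCycle) :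
    m ≤ c.length + 1 := by
  classical
  set φ := phi (m := m) idx with hφ
  let T : List Lt → Prop := fun w => ∃ x ∈ c.support, x.1 = mk m φ w
  have hTwo : Two m φ T := by
    refine ⟨?_, ?_, ?_⟩
    · rintro w ⟨x, -, hx⟩ rfl
      apply x.2
      intro s
      rw [hx]
      obtain ⟨u, rfl⟩ := mk_surj m φ s
      rw [mk_mul, mk_mul, List.nil_append, List.append_nil]
    · rintro w w' ⟨x, hx, hxw⟩ h
      exact ⟨x, hx, hxw.trans ((mk_eq m φ).2 h)⟩
    · rintro w ⟨x, hx, hxw⟩
      obtain ⟨a, b, hab, hnb⟩ := Set.ncard_eq_two.1 (hc.ncard_neighborSet_toSubgraph_eq_two hx)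
      have ha : c.toSubgraph.Adj x a := by
        have : a ∈ c.toSubgraph.neighborSet x := by rw [hnb]; simp
        exact this
      have hb : c.toSubgraph.Adj x b := by
        have : b ∈ c.toSubgraph.neighborSet x := by rw [hnb]; simp
        exact this
      have hac : a ∈ c.support := by
        rw [← SimpleGraph.Walk.mem_verts_toSubgraph]
        exact ha.snd_mem
      have hbc : b ∈ c.support := by
        rw [← SimpleGraph.Walk.mem_verts_toSubgraph]
        exact hb.snd_mem
      obtain ⟨wa, hwa⟩ := mk_surj m φ a.1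
      obtain ⟨wb, hwb⟩ := mk_surj m φ b.1
      have adja := ha.adj_sub
      have adjb := hb.adj_sub
      refine ⟨wa, wb, ⟨a, hac, hwa.symm⟩, ⟨b, hbc, hwb.symm⟩, ?_, ?_, ?_, ?_, ?_⟩
      · intro h
        exact hab (Subtype.ext (hwa.symm.trans (((mk_eq m φ).2 h).trans hwb)))
      · intro h
        exact adja.1 (Subtype.ext (hxw.trans (((mk_eq m φ).2 h).symm.trans hwa)))
      · intro h
        exact adjb.1 (Subtype.ext (hxw.trans (((mk_eq m φ).2 h).symm.trans hwb)))
      · have := adja.2
        rw [hxw, ← hwa, mk_mul, mk_mul] at this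
        exact (mk_eq m φ).1 this
      · have := adjb.2
        rw [hxw, ← hwb, mk_mul, mk_mul] at this
        exact (mk_eq m φ).1 this
  obtain ⟨w, hw⟩ := mk_surj m φ v.1
  obtain ⟨E, hE, hall⟩ := hTwo.all hinj (w := w) ⟨v, c.start_mem_support, hw.symm⟩
  -- an injection of `Fin m` into the support
  let lf : Fin m → List Lt := fun i => wd m (fun x => decide (x = i.1 + 1)) (m + 1)
  have hlf : ∀ i, W m (lf i) := fun i => wd_W _
  choose f hf hf2 using fun i : Fin m => hall (lf i) (hlf i)
  have hfinj : Function.Injective f := by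
    intro i j hij
    have h1 := hf2 i
    rw [hij, hf2 j] at h1
    have h2 := (mk_eq m φ).1 h1
    rw [inv_loop (hlf j) hE, inv_loop (hlf i) hE] at h2
    have h3 := LI.leg.inj (Prod.mk.inj h2).1
    have h4 := List.append_inj_left' h3 rfl
    have h5 := wd_inj (m := m) (i := j.1 + 1) (j := i.1 + 1) (by omega) (by omega) h4
    exact Fin.ext (by omega)
  have h1 : (Finset.univ.image f).card = m := by
    rw [Finset.card_image_of_injective _ hfinj]; simp
  have h2 : Finset.univ.image f ⊆ c.support.toFinset := by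
    intro x hx
    obtain ⟨i, -, rfl⟩ := Finset.mem_image.1 hx
    simpa using hf i
  have h3 := Finset.card_le_card h2
  have h4 := List.toFinset_card_le c.support
  rw [SimpleGraph.Walk.length_support] at h4
  omega

end cycle

end final

/-- For every `g` there is a finite semigroup `S` generated by at most `12` elements whose
commuting graph contains a cycle and has girth at least `g`. -/
theorem result : ∀ g : ℕ, ∃ (S : Type) (_ : Semigroup S), Finite S ∧
    (∃ A : Finset S, A.card ≤ 12 ∧ Subsemigroup.closure (A : Set S) = ⊤) ∧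
    (∃ (v : {x : S // ¬ ∀ s : S, x * s = s * x}) (c : (commutingGraph S).Walk v v), c.IsCycle) ∧
    (∀ (v : {x : S // ¬ ∀ s : S, x * s = s * x}) (c : (commutingGraph S).Walk v v),
      c.IsCycle → g ≤ c.length) ∧
    g ≤ (commutingGraph S).girth := by
  intro g
  obtain ⟨n, hn, idx, hinj, hsurj⟩ := exists_idx (g + 1)
  have hlong : ∀ (v : V (g + 1) idx)
      (c : (commutingGraph (Sg (g + 1) (phi (m := g + 1) idx))).Walk v v),
      c.IsCycle → g ≤ c.length := by
    intro v c hc
    have := cycle_long hinj c hc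
    omega
  have hna := not_acyclic (m := g + 1) hsurj
  refine ⟨Sg (g + 1) (phi (m := g + 1) idx), inferInstance, inferInstance,
    ⟨gens _ _, card_gens _ _, closure_gens _ _⟩, ?_, hlong, ?_⟩
  · unfold SimpleGraph.IsAcyclic at hna
    push Not at hna
    exact hna
  · obtain ⟨v, c, hc, hlen⟩ := SimpleGraph.exists_girth_eq_length.2 hna
    rw [hlen]
    exact hlong v c hc

end Pool.Agent.Results.MP_eff4ce_al.GirthUnbounded
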